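import Mathlib

set_option autoImplicit false

namespace Pool.Agent.Results.MP_adc54a_gt.Bdd

open Set Filter Topology Function

theorem result (X Y : Type) [TopologicalSpace X] [TopologicalSpace Y] (f : X → Y)
    (h1 : Continuous f) (h2 : IsClosedMap f) (h3 : Function.Surjective f)
    (h4 : ∀ y : Y, (f ⁻¹' {y}).Finite)
    (hX : ∀ 𝒰 : Set (Set X), (∀ u ∈ 𝒰, IsOpen u) → ⋃₀ 𝒰 = Set.univ →
        ∃ 𝒱 : Set (Set X), (∀ v ∈ 𝒱, IsOpen v) ∧ ⋃₀ 𝒱 = Set.univ ∧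
          (∀ v ∈ 𝒱, ∃ u ∈ 𝒰, v ⊆ u) ∧ (∀ 𝒲 ⊆ 𝒱, IsOpen (⋂₀ 𝒲)))
    (h5 : (∃ n : ℕ, ∀ y : Y, (f ⁻¹' {y}).ncard ≤ n) ∨
      ∀ W : ℕ → Set Y, (∀ n, IsOpen (W n)) → ⋃ n, W n = Set.univ →
        ∃ W' : ℕ → Set Y, (∀ n, IsOpen (W' n) ∧ W' n ⊆ W n) ∧ ⋃ n, W' n = Set.univ ∧
          ∀ y, {n | y ∈ W' n}.Finite) :
    ∀ 𝒰 : Set (Set Y), (∀ u ∈ 𝒰, IsOpen u) → ⋃₀ 𝒰 = Set.univ →
      ∃ 𝒱 : Set (Set Y), (∀ v ∈ 𝒱, IsOpen v) ∧ ⋃₀ 𝒱 = Set.univ ∧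
        (∀ v ∈ 𝒱, ∃ u ∈ 𝒰, v ⊆ u) ∧ (∀ 𝒲 ⊆ 𝒱, IsOpen (⋂₀ 𝒲)) := by
  classical
  intro 𝒰 hU hc
  let O : (X → Set X) → Y → Set Y := fun N y => (f '' (⋃ x ∈ f ⁻¹' {y}, N x)ᶜ)ᶜ
  have mO : ∀ N y z, z ∈ O N y ↔ ∀ w, f w = z → ∃ x, f x = y ∧ w ∈ N x := fun N y z => by
    simp only [O, mem_compl_iff, mem_image, not_exists, not_and, mem_iUnion, mem_preimage,
      mem_singleton_iff, exists_prop]
    exact forall_congr' fun w => ⟨fun h e => by_contra fun h' => h (fun x a b => h' ⟨x, a, b⟩) e,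
      fun h h' e => (h e).elim fun x hx => h' x hx.1 hx.2⟩
  have oO : ∀ N : X → Set X, (∀ x, IsOpen (N x)) → ∀ y, IsOpen (O N y) := fun N h y =>
    (h2 _ (isOpen_biUnion fun x _ => h x).isClosed_compl).isOpen_compl
  have key : ∀ j : ℕ, ∃ N : X → Set X, (∀ x, IsOpen (N x)) ∧ (∀ x, x ∈ N x) ∧
      (∀ x, ∀ z ∈ N x, N z ⊆ N x) ∧ ∀ y (S : Finset X), (∀ x ∈ S, f x = y) → S.card ≤ j →
        ∃ U ∈ 𝒰, y ∈ U ∧ ∀ x ∈ S, N x ⊆ f ⁻¹' U := fun j => by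
    induction j with
    | zero =>
      refine ⟨fun _ => univ, fun _ => isOpen_univ, fun _ => trivial, fun _ _ _ => Subset.rfl,
        fun y S _ h => ?_⟩
      obtain ⟨U, h6, h7⟩ := hc.ge (mem_univ y)
      exact ⟨U, h6, h7, by simp [Finset.card_eq_zero.1 (Nat.le_zero.1 h)]⟩
    | succ j ih =>
      obtain ⟨N, n1, n2, n3, n4⟩ := ih
      choose! U u1 u2 u3 using n4
      let G : Y → Set Y := fun y =>
        O N y ∩ ⋂ S ∈ {S : Finset X | (∀ x ∈ S, f x = y) ∧ S.card ≤ j}, U y S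
      have g1 : ∀ y, IsOpen (G y) := fun y => (oO N n1 y).inter (Set.Finite.isOpen_biInter
        ((h4 y).toFinset.powerset.finite_toSet.subset fun S hS => Finset.mem_powerset.2
          fun x hx => (h4 y).mem_toFinset.2 (hS.1 x hx)) fun S hS => hU _ (u1 y S hS.1 hS.2))
      have g2 : ∀ y, y ∈ G y := fun y => ⟨(mO N y y).2 fun w hw => ⟨w, hw, n2 w⟩,
        mem_iInter₂.2 fun S hS => u2 y S hS.1 hS.2⟩
      obtain ⟨𝒱, v1, v2, v3, v4⟩ := hX (range fun y => f ⁻¹' G y)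
        (by rintro _ ⟨y, rfl⟩; exact (g1 y).preimage h1)
        (eq_univ_of_forall fun x => ⟨_, ⟨f x, rfl⟩, g2 _⟩)
      refine ⟨fun x => N x ∩ ⋂₀ {v ∈ 𝒱 | x ∈ v}, fun x => (n1 x).inter (v4 _ (sep_subset _ _)),
        fun x => ⟨n2 x, fun v hv => hv.2⟩, fun x z hz w hw =>
          ⟨n3 x z hz.1 hw.1, fun v hv => hw.2 v ⟨hv.1, hz.2 v hv⟩⟩, fun y S s1 s2 => ?_⟩
      rcases S.eq_empty_or_nonempty with rfl | ⟨x, hx⟩
      · obtain ⟨U, h6, h7⟩ := hc.ge (mem_univ y)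
        exact ⟨U, h6, h7, by simp⟩
      obtain ⟨v, h6, h7⟩ := v2.ge (mem_univ x)
      obtain ⟨_, ⟨y', rfl⟩, h8⟩ := v3 v h6
      have h9 : y ∈ G y' := s1 x hx ▸ h8 h7
      choose! φ p1 p2 using (mO N y' y).1 h9.1
      have q1 : ∀ w ∈ (S.erase x).image φ, f w = y' := fun w hw => by
        obtain ⟨a, ha, rfl⟩ := Finset.mem_image.1 hw
        exact p1 a (s1 a (Finset.mem_of_mem_erase ha))
      have q2 : ((S.erase x).image φ).card ≤ j := Finset.card_image_le.trans (by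
        rw [Finset.card_erase_of_mem hx]; omega)
      have q3 : G y' ⊆ U y' ((S.erase x).image φ) := fun z hz => mem_iInter₂.1 hz.2 _ ⟨q1, q2⟩
      refine ⟨_, u1 y' _ q1 q2, q3 h9, fun a ha w hw => ?_⟩
      by_cases e : a = x
      · exact q3 (h8 (hw.2 v ⟨h6, e ▸ h7⟩))
      · exact u3 y' _ q1 q2 (φ a) (Finset.mem_image_of_mem _ (Finset.mem_erase.2 ⟨e, ha⟩))
          (n3 _ a (p2 a (s1 a ha)) hw.1)
  choose N n1 n2 n3 n4 using key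
  have t1 : ∀ j y, y ∈ O (N j) y := fun j y => (mO _ y y).2 fun w hw => ⟨w, hw, n2 j w⟩
  have t2 : ∀ j y, ∀ z ∈ O (N j) y, O (N j) z ⊆ O (N j) y := fun j y z hz t ht =>
    (mO _ _ _).2 fun w hw => by
      obtain ⟨a, h6, h7⟩ := (mO _ _ _).1 ht w hw
      obtain ⟨b, h8, h9⟩ := (mO _ _ _).1 hz a h6
      exact ⟨b, h8, n3 j b a h9 h7⟩
  have t3 : ∀ j y, (f ⁻¹' {y}).ncard ≤ j → ∃ U ∈ 𝒰, O (N j) y ⊆ U := fun j y h => by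
    obtain ⟨U, h6, -, h7⟩ := n4 j y (h4 y).toFinset (fun x hx => (h4 y).mem_toFinset.1 hx)
      (by rwa [← Set.ncard_eq_toFinset_card _ (h4 y)])
    refine ⟨U, h6, fun z hz => ?_⟩
    obtain ⟨w, rfl⟩ := h3 z
    obtain ⟨a, h8, h9⟩ := (mO _ _ _).1 hz w rfl
    exact h7 a ((h4 y).mem_toFinset.2 h8) h9
  obtain ⟨W, w1, w2, w3⟩ : ∃ W' : ℕ → Set Y, (∀ n, IsOpen (W' n) ∧
      W' n ⊆ {y | ∃ U ∈ 𝒰, O (N n) y ⊆ U}) ∧ ⋃ n, W' n = univ ∧ ∀ y, {n | y ∈ W' n}.Finite := by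
    rcases h5 with ⟨n, hn⟩ | h5
    · exact ⟨fun j => {_y | j = n}, fun j => ⟨isOpen_const, fun y (e : j = n) => e ▸ t3 n y (hn y)⟩,
        eq_univ_of_forall fun y => mem_iUnion.2 ⟨n, rfl⟩, fun y => finite_singleton n⟩
    · refine h5 _ (fun j => isOpen_iff_mem_nhds.2 fun y ⟨U, h6, h7⟩ => mem_of_superset
        ((oO _ (n1 j) y).mem_nhds (t1 j y)) fun z hz => ⟨U, h6, (t2 j y z hz).trans h7⟩)
        (eq_univ_of_forall fun y => mem_iUnion.2 ⟨_, t3 _ y le_rfl⟩)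
  refine ⟨{v | ∃ j, ∃ y ∈ W j, v = O (N j) y ∩ W j}, ?_, eq_univ_of_forall fun y => ?_, ?_,
    fun 𝒲 h6 => isOpen_iff_mem_nhds.2 fun z hz => ?_⟩
  · rintro _ ⟨j, y, -, rfl⟩
    exact (oO _ (n1 j) y).inter (w1 j).1
  · obtain ⟨j, hj⟩ := mem_iUnion.1 (w2.ge (mem_univ y))
    exact ⟨_, ⟨j, y, hj, rfl⟩, t1 j y, hj⟩
  · rintro _ ⟨j, y, hy, rfl⟩
    obtain ⟨U, h6, h7⟩ := (w1 j).2 hy
    exact ⟨U, h6, inter_subset_left.trans h7⟩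
  · refine mem_of_superset (((w3 z).isOpen_biInter fun j _ =>
      (oO _ (n1 j) z).inter (w1 j).1).mem_nhds (mem_iInter₂.2 fun j hj => ⟨t1 j z, hj⟩))
      fun t ht v hv => ?_
    obtain ⟨j, y, -, rfl⟩ := h6 hv
    have := mem_iInter₂.1 ht j (hz _ hv).2
    exact ⟨t2 j y z (hz _ hv).1 this.1, this.2⟩

end Pool.Agent.Results.MP_adc54a_gt.Bdd
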